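import Pool.Agent.H332B.Step
import Pool.Agent.H332B.WC

/-! Weighted sums over pairs of zeros. -/

set_option autoImplicit false

open Complex Filter Topology Set MeasureTheory
open scoped BigOperators

namespace Pool.Agent.W338.PR

/-- the zeros of `ζ` with ordinate in `(0, T]` -/
noncomputable abbrev ZT (T : ℝ) : Finset ℂ := H343.ZSide.Z0 T

/-- the multiplicity -/
noncomputable abbrev mz (s : ℂ) : ℝ := H343.ZSide.mz s

/-- weighted sums over pairs -/
noncomputable def ps (P : Finset (ℂ × ℂ)) (f : ℝ → ℝ) : ℝ :=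
  ∑ p ∈ P, mz p.1 * mz p.2 * f (p.1.im - p.2.im)

open Classical in
/-- indicator of `|d| ≤ w` -/
noncomputable def ind (w d : ℝ) : ℝ := if |d| ≤ w then 1 else 0

lemma ind_nonneg (w d : ℝ) : 0 ≤ ind w d := by
  unfold ind
  split_ifs <;> norm_num

lemma ind_one {w d : ℝ} (h : |d| ≤ w) : ind w d = 1 := by
  unfold ind
  rw [if_pos h]

lemma mz_nonneg (s : ℂ) : 0 ≤ mz s := Nat.cast_nonneg _

lemma ps_mono {P : Finset (ℂ × ℂ)} {f g : ℝ → ℝ}
    (h : ∀ p ∈ P, f (p.1.im - p.2.im) ≤ g (p.1.im - p.2.im)) : ps P f ≤ ps P g :=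
  Finset.sum_le_sum fun p hp =>
    mul_le_mul_of_nonneg_left (h p hp) (mul_nonneg (mz_nonneg _) (mz_nonneg _))

lemma ps_subset {P Q : Finset (ℂ × ℂ)} (h : P ⊆ Q) {f : ℝ → ℝ} (hf : ∀ d, 0 ≤ f d) :
    ps P f ≤ ps Q f :=
  Finset.sum_le_sum_of_subset_of_nonneg h fun p _ _ =>
    mul_nonneg (mul_nonneg (mz_nonneg _) (mz_nonneg _)) (hf _)

lemma ps_nonneg (P : Finset (ℂ × ℂ)) {f : ℝ → ℝ} (hf : ∀ d, 0 ≤ f d) : 0 ≤ ps P f :=
  Finset.sum_nonneg fun p _ => mul_nonneg (mul_nonneg (mz_nonneg _) (mz_nonneg _)) (hf _)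

lemma ps_abs (P : Finset (ℂ × ℂ)) (f : ℝ → ℝ) : |ps P f| ≤ ps P (fun d => |f d|) := by
  unfold ps
  refine (Finset.abs_sum_le_sum_abs _ _).trans (le_of_eq ?_)
  refine Finset.sum_congr rfl fun p _ => ?_
  rw [abs_mul, abs_of_nonneg (mul_nonneg (mz_nonneg _) (mz_nonneg _))]

lemma ps_sub (P : Finset (ℂ × ℂ)) (f g : ℝ → ℝ) : ps P f - ps P g = ps P (fun d => f d - g d) := by
  unfold ps
  rw [← Finset.sum_sub_distrib]
  exact Finset.sum_congr rfl fun p _ => by ring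

lemma ps_const_mul (P : Finset (ℂ × ℂ)) (c : ℝ) (f : ℝ → ℝ) :
    ps P (fun d => c * f d) = c * ps P f := by
  unfold ps
  rw [Finset.mul_sum]
  exact Finset.sum_congr rfl fun p _ => by ring

lemma ps_sum (P : Finset (ℂ × ℂ)) (K : ℕ) (c : ℕ → ℝ) (f : ℕ → ℝ → ℝ) :
    ps P (fun d => ∑ k ∈ Finset.range K, c k * f k d) =
      ∑ k ∈ Finset.range K, c k * ps P (f k) := by
  unfold ps
  simp_rw [Finset.mul_sum]
  rw [Finset.sum_comm]
  exact Finset.sum_congr rfl fun k _ => Finset.sum_congr rfl fun p _ => by ring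

lemma N2_eq (T w : ℝ) : H332B.N2 T w = ps (ZT T ×ˢ ZT T) (ind w) := by
  classical
  unfold H332B.N2 ps ind
  rw [Finset.sum_product]
  refine Finset.sum_congr rfl fun s _ => Finset.sum_congr rfl fun s' _ => ?_
  simp only
  by_cases h : |s.im - s'.im| ≤ w
  · rw [if_pos h, if_pos h, mul_one]
  · rw [if_neg h, if_neg h, mul_zero]

lemma BP_eq (U1 U2 w : ℝ) : H332B.BP U1 U2 w = ps (H332B.Zb U1 U2 ×ˢ H332B.Zb U1 U2) (ind w) := by
  classical
  unfold H332B.BP ps ind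
  rw [Finset.sum_product]
  refine Finset.sum_congr rfl fun s _ => Finset.sum_congr rfl fun s' _ => ?_
  simp only
  by_cases h : |s.im - s'.im| ≤ w
  · rw [if_pos h, if_pos h, mul_one]
  · rw [if_neg h, if_neg h, mul_zero]

/-- the pairs of the block `k` -/
noncomputable def Bk (T : ℝ) (k : ℕ) : Finset (ℂ × ℂ) :=
  H332B.Zb (T / 2 ^ (k + 1) + 1) (2 * (T / 2 ^ (k + 1)) - 1) ×ˢ
    H332B.Zb (T / 2 ^ (k + 1) + 1) (2 * (T / 2 ^ (k + 1)) - 1)

open Classical in
/-- the other pairs -/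
noncomputable def PR (T : ℝ) (J : ℕ) : Finset (ℂ × ℂ) :=
  (ZT T ×ˢ ZT T) \ (Finset.range J).biUnion (Bk T)

lemma Bk_sub {T : ℝ} (hT : 0 < T) (k : ℕ) : Bk T k ⊆ ZT T ×ˢ ZT T := by
  have hsub : ∀ s, s ∈ H332B.Zb (T / 2 ^ (k + 1) + 1) (2 * (T / 2 ^ (k + 1)) - 1) →
      s ∈ ZT T := by
    intro s hs
    have h6 : 0 < T / 2 ^ (k + 1) := by positivity
    rw [H332B.Step.mem_Zb _ _ (by linarith)] at hs
    obtain ⟨h1, h2, h3, h4, h5⟩ := hs
    rw [H332B.Step.mem_Z0]
    have h7 : 2 * (T / 2 ^ (k + 1)) ≤ T := by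
      have h8 : 2 * (T / 2 ^ (k + 1)) = T / 2 ^ k := by rw [pow_succ]; field_simp
      rw [h8]
      exact div_le_self hT.le (one_le_pow₀ (by norm_num))
    exact ⟨h1, h2, by linarith, by linarith, h5⟩
  intro p hp
  unfold Bk at hp
  rw [Finset.mem_product] at hp ⊢
  exact ⟨hsub _ hp.1, hsub _ hp.2⟩

lemma decomp {T : ℝ} (hT : 0 < T) (J : ℕ) (f : ℝ → ℝ) :
    ps (ZT T ×ˢ ZT T) f = ∑ k ∈ Finset.range J, ps (Bk T k) f + ps (PR T J) f := by
  classical
  have hdisj : Set.PairwiseDisjoint (↑(Finset.range J)) (Bk T) := by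
    have key : ∀ j k : ℕ, j < k → Disjoint
        (H332B.Zb (T / 2 ^ (j + 1) + 1) (2 * (T / 2 ^ (j + 1)) - 1))
        (H332B.Zb (T / 2 ^ (k + 1) + 1) (2 * (T / 2 ^ (k + 1)) - 1)) := by
      intro j k hjk
      rw [Finset.disjoint_left]
      intro s hs1 hs2
      have p1 : 0 < T / 2 ^ (j + 1) := by positivity
      have p2 : 0 < T / 2 ^ (k + 1) := by positivity
      rw [H332B.Step.mem_Zb _ _ (by linarith)] at hs1 hs2
      obtain ⟨-, -, h3, -, -⟩ := hs1
      obtain ⟨-, -, -, h4, -⟩ := hs2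
      have h5 : 2 * (T / 2 ^ (k + 1)) ≤ T / 2 ^ (j + 1) := by
        have h6 : 2 * (T / 2 ^ (k + 1)) = T / 2 ^ k := by rw [pow_succ]; field_simp
        rw [h6]
        apply div_le_div_of_nonneg_left hT.le (by positivity)
        exact pow_le_pow_right₀ (by norm_num) hjk
      linarith
    intro j _ k _ hjk
    simp only [Function.onFun]
    unfold Bk
    rw [Finset.disjoint_product]
    left
    rcases lt_or_gt_of_ne hjk with h | h
    · exact key j k h
    · exact (key k j h).symm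
  have hsub : (Finset.range J).biUnion (Bk T) ⊆ ZT T ×ˢ ZT T := by
    intro p hp
    rw [Finset.mem_biUnion] at hp
    obtain ⟨k, -, hk⟩ := hp
    exact Bk_sub hT k hk
  unfold ps PR
  rw [← Finset.sum_biUnion hdisj, add_comm]
  exact (Finset.sum_sdiff hsub).symm

lemma sum_sq (K : ℕ) : ∑ k ∈ Finset.range K, 1 / (1 + (k : ℝ)) ^ 2 ≤ 2 := by
  rcases Nat.eq_zero_or_pos K with h | h
  · rw [h]; simp
  · obtain ⟨n, rfl⟩ : ∃ n, K = n + 1 := ⟨K - 1, by omega⟩
    have key : ∀ n : ℕ, ∑ k ∈ Finset.range (n + 1), 1 / (1 + (k : ℝ)) ^ 2 ≤ 2 - 1 / ((n : ℝ) + 1) := by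
      intro n
      induction n with
      | zero => norm_num
      | succ n ih =>
        rw [Finset.sum_range_succ]
        have h1 : 1 / (1 + ((n + 1 : ℕ) : ℝ)) ^ 2 ≤ 1 / ((n : ℝ) + 1) - 1 / (((n + 1 : ℕ) : ℝ) + 1) := by
          push_cast
          have e : 1 / ((n : ℝ) + 1) - 1 / ((n : ℝ) + 1 + 1) = 1 / (((n : ℝ) + 1) * ((n : ℝ) + 2)) := by
            field_simp
            ring
          rw [e]
          apply one_div_le_one_div_of_le (by positivity)
          have : (0 : ℝ) ≤ n := Nat.cast_nonneg _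
          nlinarith
        linarith
    have h1 := key n
    have : (0 : ℝ) < 1 / ((n : ℝ) + 1) := by positivity
    linarith

/-- sums of functions of power decay from the counts -/
lemma dec_sum (P : Finset (ℂ × ℂ)) {L : ℝ} (hL : 0 < L) (n : ℕ) (N : ℕ → ℝ)
    (hN : ∀ k : ℕ, ps P (ind (2 * Real.pi * k / L)) ≤ N k) (S : ℝ)
    (hS : ∀ K : ℕ, ∑ k ∈ Finset.range K, N k / (1 + (k : ℝ)) ^ n ≤ S) :
    ps P (fun d => 1 / (1 + |d| * L / (2 * Real.pi)) ^ n) ≤ 2 ^ n * S := by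
  classical
  have hpi := Real.pi_pos
  set K : ℕ := (P.sup fun p => ⌈|p.1.im - p.2.im| * L / (2 * Real.pi)⌉₊) + 1 with hK
  have h1 : ps P (fun d => 1 / (1 + |d| * L / (2 * Real.pi)) ^ n) ≤
      ps P (fun d => ∑ k ∈ Finset.range K, 2 ^ n / (1 + (k : ℝ)) ^ n *
        ind (2 * Real.pi * k / L) d) := by
    refine ps_mono fun p hp => ?_
    set d := p.1.im - p.2.im with hd
    set x := |d| * L / (2 * Real.pi) with hx
    have hx0 : 0 ≤ x := by positivity
    set k := ⌈x⌉₊ with hk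
    have hkK : k ∈ Finset.range K := by
      rw [Finset.mem_range, hK]
      exact Nat.lt_succ_of_le (Finset.le_sup (f := fun p : ℂ × ℂ =>
        ⌈|p.1.im - p.2.im| * L / (2 * Real.pi)⌉₊) hp)
    refine le_trans ?_ (Finset.single_le_sum (f := fun k : ℕ => 2 ^ n / (1 + (k : ℝ)) ^ n *
        ind (2 * Real.pi * k / L) d) (fun k _ => ?_) hkK)
    · have h2 : |d| ≤ 2 * Real.pi * k / L := by
        have h3 : x ≤ k := Nat.le_ceil x
        rw [le_div_iff₀ hL]
        rw [hx, div_le_iff₀ (by positivity)] at h3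
        linarith
      rw [ind_one h2, mul_one, ← div_pow, ← one_div_pow]
      refine pow_le_pow_left₀ (by positivity) ?_ n
      rw [div_le_div_iff₀ (by positivity) (by positivity)]
      have h4 : (k : ℝ) < x + 1 := Nat.ceil_lt_add_one hx0
      linarith
    · exact mul_nonneg (by positivity) (ind_nonneg _ _)
  refine h1.trans ?_
  rw [ps_sum]
  calc ∑ k ∈ Finset.range K, 2 ^ n / (1 + (k : ℝ)) ^ n * ps P (ind (2 * Real.pi * k / L))
      ≤ ∑ k ∈ Finset.range K, 2 ^ n / (1 + (k : ℝ)) ^ n * N k :=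
        Finset.sum_le_sum fun k _ => mul_le_mul_of_nonneg_left (hN k) (by positivity)
    _ = 2 ^ n * ∑ k ∈ Finset.range K, N k / (1 + (k : ℝ)) ^ n := by
        rw [Finset.mul_sum]
        exact Finset.sum_congr rfl fun k _ => by ring
    _ ≤ 2 ^ n * S := mul_le_mul_of_nonneg_left (hS K) (by positivity)

/-- iteration of the dyadic step -/
lemma iter_step : ∃ C T0 : ℝ, 0 < C ∧ 10 ≤ T0 ∧ ∀ (J : ℕ) (T : ℝ), 40 ≤ T → T0 * 2 ^ J ≤ T →
    40 * 2 ^ J ≤ T → ∀ w : ℝ, 0 ≤ w → w ≤ 1 →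
    ps (PR T J) (ind w) ≤ H332B.N2 (T / 2 ^ J) w + 2 * J * (C * Real.log T) ^ 2 := by
  obtain ⟨C, T0, hC, hT0, hW⟩ := H332B.wc
  refine ⟨C, T0, hC, hT0, ?_⟩
  intro J T hT40 hTJ hT40J w hw0 hw1
  have hT : 0 < T := by linarith
  have hLT : 0 ≤ Real.log T := Real.log_nonneg (by linarith)
  have key : ∀ j : ℕ, j ≤ J → H332B.N2 T w ≤ H332B.N2 (T / 2 ^ j) w +
      ∑ k ∈ Finset.range j, ps (Bk T k) (ind w) + 2 * j * (C * Real.log T) ^ 2 := by
    intro j
    induction j with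
    | zero => intro _; simp
    | succ j ih =>
      intro hj
      have h1 := ih (by omega)
      set V : ℝ := T / 2 ^ j with hV
      have hp : (2 : ℝ) ^ j * 2 ≤ 2 ^ J := by
        rw [← pow_succ]
        exact pow_le_pow_right₀ (by norm_num) hj
      have hpj : (0 : ℝ) < 2 ^ j := by positivity
      have hV40 : 80 ≤ V := by
        rw [hV, le_div_iff₀ hpj]
        linarith
      have hVT0 : T0 * 2 ≤ V := by
        rw [hV, le_div_iff₀ hpj]
        calc T0 * 2 * 2 ^ j = T0 * (2 ^ j * 2) := by ring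
          _ ≤ T0 * 2 ^ J := mul_le_mul_of_nonneg_left hp (by linarith)
          _ ≤ T := hTJ
      have hVT : V ≤ T := div_le_self hT.le (one_le_pow₀ (by norm_num))
      have hlV0 : 0 ≤ Real.log V := Real.log_nonneg (by linarith)
      have hlV : Real.log V ≤ Real.log T := Real.log_le_log (by linarith) hVT
      have e2 : T / 2 ^ (j + 1) = V / 2 := by rw [hV, pow_succ]; field_simp
      have h2 := H332B.step V w (V / 2 + 1) (2 * (V / 2) - 1) (by linarith) hw0 hw1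
        ⟨by linarith, le_rfl, le_rfl, by linarith⟩
      have h3 : H332B.BP (V / 2 + 1) (2 * (V / 2) - 1) w = ps (Bk T j) (ind w) := by
        rw [BP_eq]
        unfold Bk
        rw [e2]
      have hWn : ∀ a b, 0 ≤ H332B.Wc V a b := fun a b => by
        unfold H332B.Wc
        exact Finset.sum_nonneg fun s _ => mz_nonneg s
      have h4 := hW V (V / 2 - 1) (V / 2 + 2) (by linarith) (by linarith) (by linarith)
        (by linarith)
      have h5 := hW V (V - 2) V (by linarith) (by linarith) (by linarith) le_rfl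
      have h6 : (H332B.Wc V (V / 2 - 1) (V / 2 + 2)) ^ 2 ≤ (C * Real.log T) ^ 2 :=
        pow_le_pow_left₀ (hWn _ _) (h4.trans (mul_le_mul_of_nonneg_left hlV hC.le)) 2
      have h7 : (H332B.Wc V (V - 2) V) ^ 2 ≤ (C * Real.log T) ^ 2 :=
        pow_le_pow_left₀ (hWn _ _) (h5.trans (mul_le_mul_of_nonneg_left hlV hC.le)) 2
      rw [h3] at h2
      rw [Finset.sum_range_succ, e2]
      push_cast
      linarith
  have h1 := key J le_rfl
  rw [N2_eq T w, decomp hT J] at h1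
  linarith

end Pool.Agent.W338.PR
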