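import Pool.Agent.W207.PR.Stmts
import Pool.Agent.W338.PR.Pairs

/-! Montgomery's theorem for the pair sums up to height `T` (PR-SUM). -/

set_option autoImplicit false

open Complex Filter Topology Set MeasureTheory
open scoped BigOperators

namespace Pool.Agent.W338.PR

open W207.PR

/-- the pointwise comparison -/
lemma pointwise {r r' : ℝ → ℝ} (hr : ∀ x, HasDerivAt r (r' x) x) {K : ℝ}
    (hK1 : ∀ x, |r x| * (1 + |x|) ^ 5 ≤ K) (hK2 : ∀ x, |r' x| * (1 + |x|) ^ 5 ≤ K)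
    {L L' : ℝ} (hL' : 0 < L') (h1 : L' ≤ L) (h2 : L ≤ 2 * L') (d : ℝ) :
    |r (d * L / (2 * Real.pi)) - r (d * L' / (2 * Real.pi)) * Real.exp (-d ^ 2 / 4)| ≤
      (8 * K * ((L - L') / L' + Real.pi ^ 2 / L' ^ 2)) *
        (1 / (1 + |d| * L / (2 * Real.pi)) ^ 3) := by
  have hpi := Real.pi_pos
  have hL : 0 < L := lt_of_lt_of_le hL' h1
  have hK : 0 ≤ K := by
    have := hK1 0
    have h3 := abs_nonneg (r 0)
    simp at this
    linarith
  set a := d * L / (2 * Real.pi) with ha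
  set b := d * L' / (2 * Real.pi) with hb
  have haa : |a| = |d| * L / (2 * Real.pi) := by
    rw [ha, abs_div, abs_mul, abs_of_pos hL, abs_of_pos (by positivity : 0 < 2 * Real.pi)]
  have hbb : |b| = |d| * L' / (2 * Real.pi) := by
    rw [hb, abs_div, abs_mul, abs_of_pos hL', abs_of_pos (by positivity : 0 < 2 * Real.pi)]
  have hab : |a - b| = |b| * ((L - L') / L') := by
    have : a - b = b * ((L - L') / L') := by
      rw [ha, hb]; field_simp
    rw [this, abs_mul, abs_of_nonneg (a := (L - L') / L')]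
    exact div_nonneg (by linarith) hL'.le
  have hq : 0 ≤ (L - L') / L' := div_nonneg (by linarith) hL'.le
  have hb0 := abs_nonneg b
  have hB : 0 < 1 + |b| := by linarith
  -- mean value
  have hmv : |r a - r b| ≤ K / (1 + |b|) ^ 5 * |a - b| := by
    have hbnd : ∀ y ∈ Set.uIcc b a, ‖r' y‖ ≤ K / (1 + |b|) ^ 5 := by
      intro y hy
      have hyb : |b| ≤ |y| := by
        have haq : a = b * (L / L') := by rw [ha, hb]; field_simp
        have hLL : 1 ≤ L / L' := by rw [le_div_iff₀ hL']; linarith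
        rcases le_total 0 b with h | h
        · have : b ≤ a := by rw [haq]; nlinarith
          rw [Set.uIcc_of_le this] at hy
          rw [abs_of_nonneg h, abs_of_nonneg (h.trans hy.1)]
          exact hy.1
        · have : a ≤ b := by rw [haq]; nlinarith
          rw [Set.uIcc_of_ge this] at hy
          rw [abs_of_nonpos h, abs_of_nonpos (hy.2.trans h)]
          linarith [hy.2]
      rw [Real.norm_eq_abs, le_div_iff₀ (by positivity)]
      refine le_trans ?_ (hK2 y)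
      exact mul_le_mul_of_nonneg_left (pow_le_pow_left₀ hB.le (by linarith) 5) (abs_nonneg _)
    have := Convex.norm_image_sub_le_of_norm_hasDerivWithin_le (f := r) (f' := r')
      (s := Set.uIcc b a) (C := K / (1 + |b|) ^ 5) (fun x _ => (hr x).hasDerivWithinAt) hbnd
      (convex_uIcc b a) Set.left_mem_uIcc Set.right_mem_uIcc
    rw [Real.norm_eq_abs, Real.norm_eq_abs] at this
    exact this
  have e1 : |r a - r b| ≤ K * ((L - L') / L') * (1 / (1 + |b|) ^ 3) := by
    refine hmv.trans ?_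
    rw [hab]
    have h3 : |b| / (1 + |b|) ^ 5 ≤ 1 / (1 + |b|) ^ 3 := by
      rw [div_le_div_iff₀ (by positivity) (by positivity), one_mul]
      calc |b| * (1 + |b|) ^ 3 ≤ (1 + |b|) ^ 2 * (1 + |b|) ^ 3 := by
            apply mul_le_mul_of_nonneg_right _ (by positivity)
            nlinarith
        _ = (1 + |b|) ^ 5 := by ring
    calc K / (1 + |b|) ^ 5 * (|b| * ((L - L') / L')) =
        K * ((L - L') / L') * (|b| / (1 + |b|) ^ 5) := by ring
      _ ≤ _ := mul_le_mul_of_nonneg_left h3 (by positivity)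
  have e2 : |r b - r b * Real.exp (-d ^ 2 / 4)| ≤ K * (Real.pi ^ 2 / L' ^ 2) *
      (1 / (1 + |b|) ^ 3) := by
    have h3 : r b - r b * Real.exp (-d ^ 2 / 4) = r b * (1 - Real.exp (-d ^ 2 / 4)) := by ring
    have h4 : 0 ≤ 1 - Real.exp (-d ^ 2 / 4) := by
      have : Real.exp (-d ^ 2 / 4) ≤ 1 := Real.exp_le_one_iff.2 (by nlinarith [sq_nonneg d])
      linarith
    have h5 : 1 - Real.exp (-d ^ 2 / 4) ≤ d ^ 2 / 4 := by
      have := Real.add_one_le_exp (-d ^ 2 / 4)
      linarith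
    have h6 : d ^ 2 / 4 = |b| ^ 2 * (Real.pi ^ 2 / L' ^ 2) := by
      rw [hbb]
      have : |d| ^ 2 = d ^ 2 := sq_abs d
      field_simp
      rw [← this]
      ring
    rw [h3, abs_mul, abs_of_nonneg h4]
    have h7 : |r b| ≤ K / (1 + |b|) ^ 5 := by
      rw [le_div_iff₀ (by positivity)]
      exact hK1 b
    have h8 : |b| ^ 2 / (1 + |b|) ^ 5 ≤ 1 / (1 + |b|) ^ 3 := by
      rw [div_le_div_iff₀ (by positivity) (by positivity), one_mul]
      calc |b| ^ 2 * (1 + |b|) ^ 3 ≤ (1 + |b|) ^ 2 * (1 + |b|) ^ 3 := by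
            apply mul_le_mul_of_nonneg_right _ (by positivity)
            nlinarith
        _ = (1 + |b|) ^ 5 := by ring
    calc |r b| * (1 - Real.exp (-d ^ 2 / 4)) ≤
        K / (1 + |b|) ^ 5 * (|b| ^ 2 * (Real.pi ^ 2 / L' ^ 2)) := by
          refine mul_le_mul h7 (h5.trans h6.le) h4 (by positivity)
      _ = K * (Real.pi ^ 2 / L' ^ 2) * (|b| ^ 2 / (1 + |b|) ^ 5) := by ring
      _ ≤ _ := mul_le_mul_of_nonneg_left h8 (by positivity)
  have e3 : 1 / (1 + |b|) ^ 3 ≤ 8 * (1 / (1 + |a|) ^ 3) := by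
    have ha0 := abs_nonneg a
    have h3 : |a| ≤ 2 * |b| := by
      rw [haa, hbb, div_le_iff₀ (by positivity)]
      have : 2 * (|d| * L' / (2 * Real.pi)) * (2 * Real.pi) = |d| * (2 * L') := by field_simp
      rw [this]
      exact mul_le_mul_of_nonneg_left h2 (abs_nonneg d)
    rw [mul_one_div, div_le_div_iff₀ (by positivity) (by positivity), one_mul]
    calc (1 + |a|) ^ 3 ≤ (2 * (1 + |b|)) ^ 3 := pow_le_pow_left₀ (by linarith) (by linarith) 3
      _ = 8 * (1 + |b|) ^ 3 := by ring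
  rw [← haa]
  calc |r a - r b * Real.exp (-d ^ 2 / 4)| =
      |(r a - r b) + (r b - r b * Real.exp (-d ^ 2 / 4))| := by congr 1; ring
    _ ≤ |r a - r b| + |r b - r b * Real.exp (-d ^ 2 / 4)| := abs_add_le _ _
    _ ≤ K * ((L - L') / L') * (1 / (1 + |b|) ^ 3) +
        K * (Real.pi ^ 2 / L' ^ 2) * (1 / (1 + |b|) ^ 3) := add_le_add e1 e2
    _ = K * ((L - L') / L' + Real.pi ^ 2 / L' ^ 2) * (1 / (1 + |b|) ^ 3) := by ring
    _ ≤ K * ((L - L') / L' + Real.pi ^ 2 / L' ^ 2) * (8 * (1 / (1 + |a|) ^ 3)) :=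
        mul_le_mul_of_nonneg_left e3 (by positivity)
    _ = _ := by ring

lemma X_pos {T : ℝ} (hT : 10 ≤ T) : 0 < X T := by
  unfold X
  have := Real.pi_pos
  have : 0 < Real.log T := Real.log_pos (by linarith)
  positivity

/-- the bound of the counts in terms of `ps` -/
lemma count_le {C T0 : ℝ} (hT0 : 10 ≤ T0)
    (hUB : ∀ T : ℝ, T0 ≤ T → ∀ u : ℝ, 0 ≤ u → P T u ≤ C * (1 + u)) {T : ℝ} (hT : T0 ≤ T) (k : ℕ) :
    H332B.N2 T (2 * Real.pi * k / Real.log T) ≤ C * (1 + k) * X T := by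
  have h := hUB T hT k (Nat.cast_nonneg k)
  unfold P at h
  rwa [div_le_iff₀ (X_pos (hT0.trans hT))] at h

/-- the mass of the pairs -/
lemma mass {C T0 : ℝ} (hC : 0 < C) (hT0 : 10 ≤ T0)
    (hUB : ∀ T : ℝ, T0 ≤ T → ∀ u : ℝ, 0 ≤ u → P T u ≤ C * (1 + u)) {T : ℝ} (hT : T0 ≤ T) :
    ps (ZT T ×ˢ ZT T) (fun d => 1 / (1 + |d| * Real.log T / (2 * Real.pi)) ^ 3) ≤
      16 * C * X T := by
  have hX := X_pos (hT0.trans hT)
  have hL : 0 < Real.log T := Real.log_pos (by linarith)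
  have h := dec_sum (ZT T ×ˢ ZT T) hL 3 (fun k => C * (1 + k) * X T)
    (fun k => by rw [← N2_eq]; exact count_le hT0 hUB hT k) (2 * C * X T) (by
    intro K
    have e : ∀ k ∈ Finset.range K, C * (1 + (k : ℝ)) * X T / (1 + (k : ℝ)) ^ 3 =
        C * X T * (1 / (1 + (k : ℝ)) ^ 2) := by
      intro k _
      have : (0 : ℝ) < 1 + k := by positivity
      field_simp
    rw [Finset.sum_congr rfl e, ← Finset.mul_sum]
    have := mul_le_mul_of_nonneg_left (sum_sq K) (by positivity : 0 ≤ C * X T)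
    linarith)
  refine h.trans (le_of_eq ?_)
  ring

/-- the pairs outside the blocks -/
lemma rest {C T0 : ℝ} (hC : 0 < C) (hT0 : 10 ≤ T0)
    (hUB : ∀ T : ℝ, T0 ≤ T → ∀ u : ℝ, 0 ≤ u → P T u ≤ C * (1 + u)) :
    ∃ C1 : ℝ, 0 < C1 ∧ ∀ J : ℕ, ∃ T1 : ℝ, ∀ T : ℝ, T1 ≤ T →
      ps (PR T J) (fun d => 1 / (1 + |d| * Real.log T / (2 * Real.pi)) ^ 4) ≤
        32 * (C * X T / 2 ^ J + 2 * J * (C1 * Real.log T) ^ 2 +
          C * (2 * Real.pi / Real.log T) * X T) := by
  have hpi := Real.pi_pos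
  obtain ⟨C1, T2, hC1, hT2, hit⟩ := iter_step
  refine ⟨C1, hC1, fun J => ⟨max 40 (max (T0 * 2 ^ J) (max (T2 * 2 ^ J) (40 * 2 ^ J))),
    fun T hT => ?_⟩⟩
  have k1 : 40 ≤ T := (le_max_left _ _).trans hT
  have k2 : T0 * 2 ^ J ≤ T := ((le_max_left _ _).trans (le_max_right _ _)).trans hT
  have k3 : T2 * 2 ^ J ≤ T :=
    ((le_max_left _ _).trans ((le_max_right _ _).trans (le_max_right _ _))).trans hT
  have k4 : 40 * 2 ^ J ≤ T :=
    ((le_max_right _ _).trans ((le_max_right _ _).trans (le_max_right _ _))).trans hT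
  have hTpos : 0 < T := by linarith
  have h2J : (1 : ℝ) ≤ 2 ^ J := one_le_pow₀ (by norm_num)
  have hTT0 : T0 ≤ T := by
    have : T0 * 1 ≤ T0 * 2 ^ J := mul_le_mul_of_nonneg_left h2J (by linarith)
    linarith
  have hX := X_pos (hT0.trans hTT0)
  have hL : 0 < Real.log T := Real.log_pos (by linarith)
  have hVT0 : T0 ≤ T / 2 ^ J := by
    rw [le_div_iff₀ (by positivity)]
    exact k2
  have hVT : T / 2 ^ J ≤ T := div_le_self hTpos.le h2J
  have hLV : 0 < Real.log (T / 2 ^ J) := Real.log_pos (by linarith)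
  have hLL : Real.log (T / 2 ^ J) ≤ Real.log T := Real.log_le_log (by linarith) hVT
  have hXV : X (T / 2 ^ J) ≤ X T / 2 ^ J := by
    unfold X
    calc T / 2 ^ J / (2 * Real.pi) * Real.log (T / 2 ^ J) ≤
        T / 2 ^ J / (2 * Real.pi) * Real.log T := by gcongr
      _ = _ := by ring
  set S0 : ℝ := C * X T / 2 ^ J + 2 * J * (C1 * Real.log T) ^ 2 +
          C * (2 * Real.pi / Real.log T) * X T with hS0
  have hS00 : 0 ≤ S0 := by positivity
  have h := dec_sum (PR T J) hL 4 (fun k => C * (1 + k) * (X T / 2 ^ J) +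
      2 * J * (C1 * Real.log T) ^ 2 + C * (1 + k) ^ 2 * (2 * Real.pi / Real.log T) * X T)
    (fun k => by
      have hk0 : (0 : ℝ) ≤ k := Nat.cast_nonneg k
      by_cases hk : 2 * Real.pi * k / Real.log T ≤ 1
      · have h1 := hit J T k1 k3 k4 (2 * Real.pi * k / Real.log T) (by positivity) hk
        have h2 : H332B.N2 (T / 2 ^ J) (2 * Real.pi * k / Real.log T) ≤
            C * (1 + k) * X (T / 2 ^ J) := by
          refine le_trans ?_ (count_le hT0 hUB hVT0 k)
          rw [N2_eq, N2_eq]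
          refine ps_mono fun p _ => ?_
          by_cases h3 : |p.1.im - p.2.im| ≤ 2 * Real.pi * k / Real.log T
          · rw [ind_one h3, ind_one (h3.trans (by gcongr))]
          · have : ind (2 * Real.pi * k / Real.log T) (p.1.im - p.2.im) = 0 := by
              unfold ind
              rw [if_neg h3]
            rw [this]
            exact ind_nonneg _ _
        have h3 : C * (1 + k) * X (T / 2 ^ J) ≤ C * (1 + k) * (X T / 2 ^ J) :=
          mul_le_mul_of_nonneg_left hXV (by positivity)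
        have h4 : 0 ≤ C * (1 + (k : ℝ)) ^ 2 * (2 * Real.pi / Real.log T) * X T := by positivity
        linarith
      · push Not at hk
        have h1 : ps (PR T J) (ind (2 * Real.pi * k / Real.log T)) ≤
            ps (ZT T ×ˢ ZT T) (ind (2 * Real.pi * k / Real.log T)) := by
          classical
          exact ps_subset Finset.sdiff_subset (ind_nonneg _)
        rw [← N2_eq] at h1
        have h2 := count_le hT0 hUB hTT0 k
        have h3 : 1 ≤ (1 + k) * (2 * Real.pi / Real.log T) := by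
          have : 2 * Real.pi * k / Real.log T = k * (2 * Real.pi / Real.log T) := by ring
          rw [this] at hk
          have : 0 < 2 * Real.pi / Real.log T := by positivity
          nlinarith
        have h4 : C * (1 + k) * X T * 1 ≤ C * (1 + k) * X T * ((1 + k) * (2 * Real.pi / Real.log T)) :=
          mul_le_mul_of_nonneg_left h3 (by positivity)
        have h5 : 0 ≤ C * (1 + (k : ℝ)) * (X T / 2 ^ J) := by positivity
        have h6 : 0 ≤ 2 * (J : ℝ) * (C1 * Real.log T) ^ 2 := by positivity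
        have h7 : C * (1 + k) * X T * ((1 + k) * (2 * Real.pi / Real.log T)) =
            C * (1 + (k : ℝ)) ^ 2 * (2 * Real.pi / Real.log T) * X T := by ring
        linarith) (2 * S0) (by
    intro K
    have e : ∀ k ∈ Finset.range K, (C * (1 + (k : ℝ)) * (X T / 2 ^ J) +
        2 * J * (C1 * Real.log T) ^ 2 + C * (1 + (k : ℝ)) ^ 2 * (2 * Real.pi / Real.log T) * X T) /
          (1 + (k : ℝ)) ^ 4 ≤ S0 * (1 / (1 + (k : ℝ)) ^ 2) := by
      intro k _
      have hk0 : (0 : ℝ) ≤ k := Nat.cast_nonneg k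
      have hk1 : (1 : ℝ) ≤ 1 + k := by linarith
      rw [mul_one_div, div_le_div_iff₀ (by positivity) (by positivity)]
      have a1 : C * (1 + (k : ℝ)) * (X T / 2 ^ J) + 2 * J * (C1 * Real.log T) ^ 2 +
          C * (1 + (k : ℝ)) ^ 2 * (2 * Real.pi / Real.log T) * X T ≤ S0 * (1 + (k : ℝ)) ^ 2 := by
        have b1 : (1 + (k : ℝ)) ≤ (1 + (k : ℝ)) ^ 2 := by nlinarith
        have b2 : (1 : ℝ) ≤ (1 + (k : ℝ)) ^ 2 := by nlinarith
        have c1 : C * (1 + (k : ℝ)) * (X T / 2 ^ J) ≤ C * X T / 2 ^ J * (1 + (k : ℝ)) ^ 2 := by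
          calc C * (1 + (k : ℝ)) * (X T / 2 ^ J) = C * X T / 2 ^ J * (1 + (k : ℝ)) := by ring
            _ ≤ _ := mul_le_mul_of_nonneg_left b1 (by positivity)
        have c2 : 2 * J * (C1 * Real.log T) ^ 2 * 1 ≤
            2 * J * (C1 * Real.log T) ^ 2 * (1 + (k : ℝ)) ^ 2 :=
          mul_le_mul_of_nonneg_left b2 (by positivity)
        rw [hS0]
        nlinarith
      calc _ ≤ (S0 * (1 + (k : ℝ)) ^ 2) * (1 + (k : ℝ)) ^ 2 :=
            mul_le_mul_of_nonneg_right a1 (by positivity)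
        _ = _ := by ring
    refine (Finset.sum_le_sum e).trans ?_
    rw [← Finset.mul_sum]
    have := mul_le_mul_of_nonneg_left (sum_sq K) hS00
    linarith)
  refine h.trans (le_of_eq ?_)
  ring

lemma SS_eq (f : ℝ → ℝ) (A B L : ℝ) : W201FW.SS f A B L =
    ps (H332B.Zb A B ×ˢ H332B.Zb A B)
      (fun d => f (d * L / (2 * Real.pi)) * Real.exp (-d ^ 2 / 4)) := by
  unfold W201FW.SS ps
  rw [Finset.sum_product]
  rfl

lemma SP_eq (ψ : ℝ → ℝ) (T : ℝ) : SP ψ T =
    ps (ZT T ×ˢ ZT T) (fun d => ct ψ (d * Real.log T / (2 * Real.pi))) := by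
  unfold SP ps
  rw [Finset.sum_product]

/-- the comparison of the full sum with the blocks -/
lemma key {C T0 : ℝ} (hC : 0 < C) (hT0 : 10 ≤ T0)
    (hUB : ∀ T : ℝ, T0 ≤ T → ∀ u : ℝ, 0 ≤ u → P T u ≤ C * (1 + u)) {ψ : ℝ → ℝ}
    (hder : ∀ x, HasDerivAt (ct ψ) (dt ψ x) x) {K : ℝ} (hK : 0 < K)
    (hK1 : ∀ x, |ct ψ x| * (1 + |x|) ^ 5 ≤ K) (hK2 : ∀ x, |dt ψ x| * (1 + |x|) ^ 5 ≤ K) :
    ∀ J : ℕ, ∃ B : ℝ, ∀ᶠ T : ℝ in atTop,
      |SP ψ T - ∑ k ∈ Finset.range J, W201FW.SS (ct ψ) (T / 2 ^ (k + 1) + 1)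
        (2 * (T / 2 ^ (k + 1)) - 1) (Real.log (T / 2 ^ (k + 1)))| ≤
        (32 * K * C / 2 ^ J + B / Real.log T) * X T := by
  have hpi := Real.pi_pos
  have hl2 : 0 < Real.log 2 := Real.log_pos (by norm_num)
  obtain ⟨C1, hC1, hrest⟩ := rest hC hT0 hUB
  intro J
  obtain ⟨T1, hrest⟩ := hrest J
  refine ⟨32 * K * (4 * Real.pi * J * C1 ^ 2 + 2 * Real.pi * C) +
    J * (8 * K * (2 * J * Real.log 2 + 4 * Real.pi ^ 2) * (16 * C)), ?_⟩
  have hlogtop := Real.tendsto_log_atTop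
  have hlog2 : ∀ᶠ T : ℝ in atTop, (Real.log T) ^ 2 ≤ T := by
    have h1 := (Real.isLittleO_pow_log_id_atTop (n := 2)).bound (one_pos)
    filter_upwards [h1, eventually_ge_atTop 1] with T h2 h3
    rw [Real.norm_eq_abs, one_mul, id, Real.norm_eq_abs, abs_of_nonneg (by positivity),
      abs_of_nonneg (by linarith)] at h2
    exact h2
  filter_upwards [eventually_ge_atTop T1, eventually_ge_atTop T0, eventually_ge_atTop ((2 : ℝ) ^ J),
    hlogtop.eventually_ge_atTop (2 * (J * Real.log 2) + 1), hlog2] with T e1 e2 e3 e4 e5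
  have hTpos : 0 < T := by linarith
  have hJl : 0 ≤ J * Real.log 2 := by positivity
  have hL : 0 < Real.log T := by linarith
  have hL1 : 1 ≤ Real.log T := by linarith
  have hX := X_pos (hT0.trans e2)
  have hmass := mass hC hT0 hUB e2
  have hrest := hrest T e1
  set L := Real.log T with hLdef
  -- the rest
  have hR : |ps (PR T J) (fun d => ct ψ (d * L / (2 * Real.pi)))| ≤
      K * (32 * (C * X T / 2 ^ J + 2 * J * (C1 * L) ^ 2 + C * (2 * Real.pi / L) * X T)) := by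
    refine (ps_abs _ _).trans ?_
    refine le_trans ?_ (mul_le_mul_of_nonneg_left hrest hK.le)
    rw [← ps_const_mul]
    refine ps_mono fun p _ => ?_
    set d := p.1.im - p.2.im
    have h1 := hK1 (d * L / (2 * Real.pi))
    have h2 : |d * L / (2 * Real.pi)| = |d| * L / (2 * Real.pi) := by
      rw [abs_div, abs_mul, abs_of_pos hL, abs_of_pos (by positivity : 0 < 2 * Real.pi)]
    rw [h2] at h1
    have h3 : 0 ≤ |d| * L / (2 * Real.pi) := by positivity
    rw [mul_one_div, le_div_iff₀ (by positivity)]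
    refine le_trans ?_ h1
    exact mul_le_mul_of_nonneg_left (pow_le_pow_right₀ (by linarith) (by norm_num)) (abs_nonneg _)
  -- the blocks
  have hBk : ∀ k ∈ Finset.range J, |ps (Bk T k) (fun d => ct ψ (d * L / (2 * Real.pi))) -
      W201FW.SS (ct ψ) (T / 2 ^ (k + 1) + 1) (2 * (T / 2 ^ (k + 1)) - 1)
        (Real.log (T / 2 ^ (k + 1)))| ≤
      8 * K * (2 * J * Real.log 2 + 4 * Real.pi ^ 2) * (16 * C) * (X T / L) := by
    intro k hk
    rw [Finset.mem_range] at hk
    have hlog : Real.log (T / 2 ^ (k + 1)) = L - (k + 1) * Real.log 2 := by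
      rw [Real.log_div hTpos.ne' (by positivity), Real.log_pow]
      push_cast
      rfl
    have hk1 : ((k : ℝ) + 1) ≤ J := by exact_mod_cast hk
    have hk2 : ((k : ℝ) + 1) * Real.log 2 ≤ J * Real.log 2 := by gcongr
    set L' := Real.log (T / 2 ^ (k + 1)) with hL'def
    have hL'1 : L ≤ 2 * L' := by rw [hlog]; linarith
    have hL'0 : 0 < L' := by linarith
    have hL'2 : L' ≤ L := by
      rw [hlog]
      have : 0 ≤ ((k : ℝ) + 1) * Real.log 2 := by positivity
      linarith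
    rw [SS_eq, show H332B.Zb (T / 2 ^ (k + 1) + 1) (2 * (T / 2 ^ (k + 1)) - 1) ×ˢ
      H332B.Zb (T / 2 ^ (k + 1) + 1) (2 * (T / 2 ^ (k + 1)) - 1) = Bk T k from rfl, ps_sub]
    refine (ps_abs _ _).trans ?_
    set q : ℝ := 8 * K * ((L - L') / L' + Real.pi ^ 2 / L' ^ 2) with hq
    have hq0 : 0 ≤ q := by
      have : 0 ≤ (L - L') / L' := div_nonneg (by linarith) hL'0.le
      positivity
    have h1 : ps (Bk T k) (fun d => |ct ψ (d * L / (2 * Real.pi)) -
        ct ψ (d * L' / (2 * Real.pi)) * Real.exp (-d ^ 2 / 4)|) ≤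
        ps (Bk T k) (fun d => q * (1 / (1 + |d| * L / (2 * Real.pi)) ^ 3)) :=
      ps_mono fun p _ => pointwise hder hK1 hK2 hL'0 hL'2 hL'1 _
    refine h1.trans ?_
    rw [ps_const_mul]
    have h2 : ps (Bk T k) (fun d => 1 / (1 + |d| * L / (2 * Real.pi)) ^ 3) ≤ 16 * C * X T := by
      refine (ps_subset (Bk_sub hTpos k) fun d => ?_).trans hmass
      positivity
    have h3 : q ≤ 8 * K * ((2 * J * Real.log 2 + 4 * Real.pi ^ 2) / L) := by
      rw [hq]
      refine mul_le_mul_of_nonneg_left ?_ (by positivity)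
      have a1 : (L - L') / L' ≤ 2 * J * Real.log 2 / L := by
        rw [div_le_div_iff₀ hL'0 hL]
        have b1 : L - L' ≤ J * Real.log 2 := by rw [hlog]; linarith
        have b2 : (L - L') * L ≤ J * Real.log 2 * L := mul_le_mul_of_nonneg_right b1 hL.le
        have b3 : J * Real.log 2 * L ≤ J * Real.log 2 * (2 * L') :=
          mul_le_mul_of_nonneg_left hL'1 hJl
        linarith
      have a2 : Real.pi ^ 2 / L' ^ 2 ≤ 4 * Real.pi ^ 2 / L := by
        rw [div_le_div_iff₀ (by positivity) hL]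
        have b1 : L ≤ 4 * L' ^ 2 := by nlinarith
        nlinarith [sq_nonneg Real.pi]
      rw [add_div]
      exact add_le_add a1 a2
    calc q * ps (Bk T k) (fun d => 1 / (1 + |d| * L / (2 * Real.pi)) ^ 3) ≤
        (8 * K * ((2 * J * Real.log 2 + 4 * Real.pi ^ 2) / L)) * (16 * C * X T) :=
          mul_le_mul h3 h2 (ps_nonneg _ fun d => by positivity) (by positivity)
      _ = _ := by ring
  have hsum : |∑ k ∈ Finset.range J, (ps (Bk T k) (fun d => ct ψ (d * L / (2 * Real.pi))) -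
      W201FW.SS (ct ψ) (T / 2 ^ (k + 1) + 1) (2 * (T / 2 ^ (k + 1)) - 1)
        (Real.log (T / 2 ^ (k + 1))))| ≤
      J * (8 * K * (2 * J * Real.log 2 + 4 * Real.pi ^ 2) * (16 * C) * (X T / L)) := by
    refine (Finset.abs_sum_le_sum_abs _ _).trans ?_
    refine (Finset.sum_le_sum hBk).trans ?_
    rw [Finset.sum_const, Finset.card_range, nsmul_eq_mul]
  have hdec : SP ψ T - ∑ k ∈ Finset.range J, W201FW.SS (ct ψ) (T / 2 ^ (k + 1) + 1)
        (2 * (T / 2 ^ (k + 1)) - 1) (Real.log (T / 2 ^ (k + 1))) =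
      ∑ k ∈ Finset.range J, (ps (Bk T k) (fun d => ct ψ (d * L / (2 * Real.pi))) -
      W201FW.SS (ct ψ) (T / 2 ^ (k + 1) + 1) (2 * (T / 2 ^ (k + 1)) - 1)
        (Real.log (T / 2 ^ (k + 1)))) + ps (PR T J) (fun d => ct ψ (d * L / (2 * Real.pi))) := by
    rw [SP_eq, decomp hTpos J, Finset.sum_sub_distrib]
    ring
  rw [hdec]
  refine (abs_add_le _ _).trans ?_
  have hL2 : 2 * J * (C1 * L) ^ 2 ≤ (4 * Real.pi * J * C1 ^ 2) / L * X T := by
    have : (4 * Real.pi * J * C1 ^ 2) / L * X T = 2 * J * C1 ^ 2 * T := by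
      unfold X
      rw [← hLdef]
      field_simp
      ring
    rw [this]
    calc 2 * J * (C1 * L) ^ 2 = 2 * J * C1 ^ 2 * L ^ 2 := by ring
      _ ≤ 2 * J * C1 ^ 2 * T := mul_le_mul_of_nonneg_left e5 (by positivity)
  have hfin : K * (32 * (C * X T / 2 ^ J + 2 * J * (C1 * L) ^ 2 + C * (2 * Real.pi / L) * X T)) ≤
      (32 * K * C / 2 ^ J + 32 * K * (4 * Real.pi * J * C1 ^ 2 + 2 * Real.pi * C) / L) * X T := by
    have : (32 * K * C / 2 ^ J + 32 * K * (4 * Real.pi * J * C1 ^ 2 + 2 * Real.pi * C) / L) * X T =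
        K * (32 * (C * X T / 2 ^ J + (4 * Real.pi * J * C1 ^ 2) / L * X T +
          C * (2 * Real.pi / L) * X T)) := by ring
    rw [this]
    gcongr
  refine (add_le_add hsum (hR.trans hfin)).trans (le_of_eq ?_)
  ring

lemma geo (J : ℕ) : ∑ k ∈ Finset.range J, (1 : ℝ) / 2 ^ (k + 1) = 1 - 1 / 2 ^ J := by
  induction J with
  | zero => simp
  | succ n ih =>
    rw [Finset.sum_range_succ, ih, pow_succ]
    field_simp
    ring

theorem sum : S_SUM := by
  intro hRH hCELL hUB hDEC hBLK ψ hψ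
  obtain ⟨C, T0, hC, hT0, hUB⟩ := hUB hRH hCELL
  have hB := hBLK hRH ψ hψ
  obtain ⟨hder, -, hdec⟩ := hDEC ψ hψ
  obtain ⟨K, hK, hKK⟩ := hdec 5
  have hkey := key hC hT0 hUB hder hK (fun x => (hKK x).1) (fun x => (hKK x).2)
  have hpi := Real.pi_pos
  -- the main terms
  have hmain : ∀ k : ℕ, Tendsto (fun T : ℝ => W201FW.SS (ct ψ) (T / 2 ^ (k + 1) + 1)
        (2 * (T / 2 ^ (k + 1)) - 1) (Real.log (T / 2 ^ (k + 1))) / X T) atTop
        (𝓝 (MM ψ * (1 / 2 ^ (k + 1)))) := by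
    intro k
    have hV : Tendsto (fun T : ℝ => T / 2 ^ (k + 1)) atTop atTop :=
      tendsto_id.atTop_div_const (by positivity)
    have h1 := hB.comp hV
    have h2 : Tendsto (fun T : ℝ => X (T / 2 ^ (k + 1)) / X T) atTop (𝓝 (1 / 2 ^ (k + 1))) := by
      have h3 : Tendsto (fun T : ℝ => 1 / 2 ^ (k + 1) *
          (1 - (((k : ℝ) + 1) * Real.log 2) * (Real.log T)⁻¹)) atTop
          (𝓝 (1 / 2 ^ (k + 1) * (1 - (((k : ℝ) + 1) * Real.log 2) * 0))) := by
        refine Tendsto.const_mul _ (Tendsto.const_sub _ (Tendsto.const_mul _ ?_))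
        exact tendsto_inv_atTop_zero.comp Real.tendsto_log_atTop
      rw [mul_zero, sub_zero, mul_one] at h3
      refine h3.congr' ?_
      filter_upwards [eventually_ge_atTop 10] with T hT
      have hTpos : 0 < T := by linarith
      have hL : 0 < Real.log T := Real.log_pos (by linarith)
      unfold X
      rw [Real.log_div hTpos.ne' (by positivity), Real.log_pow]
      push_cast
      field_simp
    refine (h1.mul h2).congr' ?_
    filter_upwards [hV.eventually_ge_atTop 10] with T hT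
    simp only [Function.comp]
    have := X_pos hT
    field_simp
  rw [Metric.tendsto_nhds]
  intro ε hε
  obtain ⟨J, hJ⟩ : ∃ J : ℕ, (32 * K * C + |MM ψ|) * (1 / 2 : ℝ) ^ J < ε / 2 := by
    have hA : 0 < 32 * K * C + |MM ψ| := by
      have := abs_nonneg (MM ψ)
      positivity
    obtain ⟨J, hJ⟩ := exists_pow_lt_of_lt_one
      (show (0 : ℝ) < ε / 2 / (32 * K * C + |MM ψ|) by positivity)
      (show (1 / 2 : ℝ) < 1 by norm_num)
    refine ⟨J, ?_⟩
    rw [lt_div_iff₀ hA] at hJ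
    linarith
  obtain ⟨B, hBk⟩ := hkey J
  have hsum : Tendsto (fun T : ℝ => ∑ k ∈ Finset.range J,
      W201FW.SS (ct ψ) (T / 2 ^ (k + 1) + 1)
        (2 * (T / 2 ^ (k + 1)) - 1) (Real.log (T / 2 ^ (k + 1))) / X T) atTop
        (𝓝 (∑ k ∈ Finset.range J, MM ψ * (1 / 2 ^ (k + 1)))) :=
    tendsto_finsetSum _ fun k _ => hmain k
  rw [← Finset.mul_sum, geo] at hsum
  have hBL : Tendsto (fun T : ℝ => B * (Real.log T)⁻¹) atTop (𝓝 (B * 0)) :=
    Tendsto.const_mul _ (tendsto_inv_atTop_zero.comp Real.tendsto_log_atTop)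
  rw [mul_zero] at hBL
  rw [Metric.tendsto_nhds] at hsum hBL
  filter_upwards [hsum (ε / 4) (by positivity), hBL (ε / 4) (by positivity), hBk,
    eventually_ge_atTop 10] with T h1 h2 h3 h4
  have hX := X_pos h4
  rw [Real.dist_eq] at h1 h2 ⊢
  rw [sub_zero] at h2
  set Sk := ∑ k ∈ Finset.range J, W201FW.SS (ct ψ) (T / 2 ^ (k + 1) + 1)
        (2 * (T / 2 ^ (k + 1)) - 1) (Real.log (T / 2 ^ (k + 1))) with hSk
  rw [← Finset.sum_div, ← hSk] at h1
  have h5 : |SP ψ T / X T - Sk / X T| ≤ 32 * K * C / 2 ^ J + B / Real.log T := by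
    rw [← sub_div, abs_div, abs_of_pos hX, div_le_iff₀ hX]
    exact h3
  have h6 : B / Real.log T < ε / 4 := by
    rw [div_eq_mul_inv]
    exact (le_abs_self _).trans_lt h2
  have h7 : |MM ψ * (1 - 1 / 2 ^ J) - MM ψ| = |MM ψ| * (1 / 2) ^ J := by
    have : MM ψ * (1 - 1 / 2 ^ J) - MM ψ = -(MM ψ * (1 / 2) ^ J) := by
      rw [one_div_pow]; ring
    rw [this, abs_neg, abs_mul, abs_of_pos (by positivity : (0 : ℝ) < (1 / 2) ^ J)]
  have h8 : 32 * K * C / 2 ^ J = 32 * K * C * (1 / 2) ^ J := by rw [one_div_pow]; ring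
  calc |SP ψ T / X T - MM ψ| = |(SP ψ T / X T - Sk / X T) +
        ((Sk / X T - MM ψ * (1 - 1 / 2 ^ J)) + (MM ψ * (1 - 1 / 2 ^ J) - MM ψ))| := by
          congr 1; ring
    _ ≤ |SP ψ T / X T - Sk / X T| + (|Sk / X T - MM ψ * (1 - 1 / 2 ^ J)| +
        |MM ψ * (1 - 1 / 2 ^ J) - MM ψ|) :=
          (abs_add_le _ _).trans (add_le_add le_rfl (abs_add_le _ _))
    _ < ε := by
        rw [h7]
        rw [h8] at h5
        linarith

end Pool.Agent.W338.PR
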